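import Mathlib

/-!
# MP_903317_co: the conjecture fails for `k = 11`

The graph is a blow-up (with independent classes) of a `12`-vertex Vega graph.
-/

set_option autoImplicit false

namespace Pool.Agent.Results.MP_903317_co.ElevenTwins

/-- The class `F(k, d)`: the graph is `k`-regular, not bipartite, of diameter exactly `d` and of
girth exactly `2 d`. -/
def InF {V : Type} (k d : ℕ) (G : SimpleGraph V) : Prop :=
  (∀ v, (G.neighborSet v).ncard = k) ∧ ¬ G.IsBipartite ∧ G.ediam = (d : ℕ∞) ∧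
    G.egirth = ((2 * d : ℕ) : ℕ∞)

/-- The graph `G_k(p, q)`, `k = p q`, on `ℤ / (3 p - 1) q ℤ`: distinct `i, j` are adjacent if and
only if `i - j ≡ 1 + 3 n` modulo `3 p - 1` for some `n ∈ {0, 1, ..., p - 1}` (this relation is
symmetric). -/
def Gk (p q : ℕ) : SimpleGraph (ZMod ((3 * p - 1) * q)) :=
  SimpleGraph.fromRel (fun i j => ∃ n < p, (i - j).val ≡ 1 + 3 * n [MOD (3 * p - 1)])

/-- the class of a vertex -/
def cls (i : Fin 32) : Fin 12 :=
  ![0, 1, 1, 1, 2, 2, 2, 3, 4, 4, 4, 5, 5, 6, 6, 6, 7, 7, 7, 7, 8, 8, 9, 9, 9, 9, 10, 10, 10,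
    11, 11, 11] i

/-- neighbourhoods of the 12 classes as bit masks -/
def mask (i : Fin 12) : ℕ :=
  ![588, 600, 1169, 1155, 2310, 2688, 2179, 364, 656, 1315, 2572, 1136] i

/-- The counterexample. -/
def G : SimpleGraph (Fin 32) where
  Adj i j := (mask (cls i)).testBit (cls j).val = true
  symm := ⟨by decide +kernel⟩
  loopless := ⟨by decide +kernel⟩

instance : DecidableRel G.Adj := fun i j =>
  inferInstanceAs (Decidable ((mask (cls i)).testBit (cls j).val = true))

lemma regular : ∀ v, (G.neighborSet v).ncard = 11 := by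
  intro v
  rw [Set.ncard_eq_toFinset_card']
  revert v
  decide +kernel

lemma not_bip : ¬ G.IsBipartite := by
  rintro ⟨c⟩
  have key : ∀ a b c d e : Fin 2, a ≠ b → b ≠ c → c ≠ d → d ≠ e → e ≠ a → False := by
    intro a b c d e
    omega
  have h : ∃ a b c d e : Fin 32, G.Adj a b ∧ G.Adj b c ∧ G.Adj c d ∧ G.Adj d e ∧ G.Adj e a := by
    refine ⟨0, 4, 8, 1, 7, ?_⟩
    decide +kernel
  obtain ⟨v, w, x, y, z, h1, h2, h3, h4, h5⟩ := h
  exact key _ _ _ _ _ (c.valid h1) (c.valid h2) (c.valid h3) (c.valid h4) (c.valid h5)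

lemma tri_free : ∀ a b c, G.Adj a b → G.Adj b c → G.Adj c a → False := by
  decide +kernel

lemma common : ∀ a b, G.Adj a b ∨ ∃ c, G.Adj a c ∧ G.Adj c b := by
  decide +kernel

lemma diam_two : G.ediam = ((2 : ℕ) : ℕ∞) := by
  apply le_antisymm
  · rw [SimpleGraph.ediam_le_iff]
    intro u v
    rcases common u v with h | ⟨c, h1, h2⟩
    · exact le_trans (SimpleGraph.edist_le (SimpleGraph.Walk.cons h SimpleGraph.Walk.nil))
        (by simp)
    · refine le_trans (SimpleGraph.edist_le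
        (SimpleGraph.Walk.cons h1 (SimpleGraph.Walk.cons h2 SimpleGraph.Walk.nil))) ?_
      simp
  · have h01 : ¬ G.Adj 0 1 := by decide +kernel
    have h := SimpleGraph.edist_le_ediam (G := G) (u := 0) (v := 1)
    have h0 : G.edist 0 1 ≠ 0 := by
      rw [Ne, SimpleGraph.edist_eq_zero_iff]
      decide
    have h1 : G.edist 0 1 ≠ 1 := by
      rw [Ne, SimpleGraph.edist_eq_one_iff_adj]
      exact h01
    refine le_trans ?_ h
    generalize G.edist 0 1 = e at h0 h1
    induction e using ENat.recTopCoe with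
    | top => exact le_top
    | coe m =>
      have h0' : m ≠ 0 := by rintro rfl; exact h0 rfl
      have h1' : m ≠ 1 := by rintro rfl; exact h1 rfl
      have : 2 ≤ m := by omega
      exact_mod_cast this

lemma girth_four : G.egirth = ((2 * 2 : ℕ) : ℕ∞) := by
  apply le_antisymm
  · have h1 : G.Adj 0 4 := by decide +kernel
    have h2 : G.Adj 4 8 := by decide +kernel
    have h3 : G.Adj 8 5 := by decide +kernel
    have h4 : G.Adj 5 0 := by decide +kernel
    have hc : (SimpleGraph.Walk.cons h1 (SimpleGraph.Walk.cons h2 (SimpleGraph.Walk.cons h3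
        (SimpleGraph.Walk.cons h4 SimpleGraph.Walk.nil)))).IsCycle := by
      rw [SimpleGraph.Walk.isCycle_def, SimpleGraph.Walk.isTrail_def]
      refine ⟨?_, by simp, ?_⟩
      · simp only [SimpleGraph.Walk.edges_cons, SimpleGraph.Walk.edges_nil]
        decide
      · simp only [SimpleGraph.Walk.support_cons, SimpleGraph.Walk.support_nil, List.tail_cons]
        decide
    exact SimpleGraph.egirth_le_length hc
  · rw [SimpleGraph.le_egirth]
    intro a w hw
    have h3 := hw.three_le_length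
    have h4 : w.length ≠ 3 := by
      intro h
      obtain ⟨s, hs⟩ := (SimpleGraph.is3Clique_iff_exists_cycle_length_three (G := G)).2
        ⟨a, w, hw, h⟩
      obtain ⟨x, y, z, hxy, hxz, hyz, -⟩ := SimpleGraph.is3Clique_iff.1 hs
      exact tri_free x y z hxy hyz hxz.symm
    have : 4 ≤ w.length := by omega
    exact_mod_cast this

lemma adj_Gk (i j : ZMod ((3 * 11 - 1) * 1)) :
    (Gk 11 1).Adj i j ↔ (i - j).val % 3 = 1 := by
  have h1 : ∀ d : Fin 32, (∃ n < 11, d.val ≡ 1 + 3 * n [MOD (3 * 11 - 1)]) ↔ d.val % 3 = 1 := by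
    decide +kernel
  have h2 : ∀ i j : Fin 32, (i - j).val % 3 = 1 ↔ (j - i).val % 3 = 1 := by
    decide +kernel
  have h3 : (i - j).val % 3 = 1 → i ≠ j := by
    rintro h rfl
    simp at h
  unfold Gk
  rw [SimpleGraph.fromRel_adj]
  have ha := h1 (i - j)
  have hb := h1 (j - i)
  have hc := h2 i j
  constructor
  · rintro ⟨-, h | h⟩
    · exact ha.1 h
    · exact hc.2 (hb.1 h)
  · intro h
    exact ⟨h3 h, Or.inl (ha.2 h)⟩

/-- `G_11(11, 1)` has no two distinct vertices with the same neighbours. -/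
lemma no_twins (i j : ZMod ((3 * 11 - 1) * 1)) (hij : i ≠ j) :
    ∃ x, ¬ ((Gk 11 1).Adj i x ↔ (Gk 11 1).Adj j x) := by
  have h : ∀ i j : Fin 32, i ≠ j → ∃ x : Fin 32, ¬ ((i - x).val % 3 = 1 ↔ (j - x).val % 3 = 1) := by
    decide +kernel
  obtain ⟨x, hx⟩ := h i j hij
  exact ⟨x, fun h => hx ((adj_Gk i x).symm.trans (h.trans (adj_Gk j x)))⟩

/-- There is `k` (namely `k = 11`) with least prime divisor `p ≥ 5` and a graph in `F(k, 2)` with
exactly `3 k - k / p` vertices that is not isomorphic to `G_k(p, k / p)`. -/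
theorem result : ∃ k : ℕ, 2 ≤ k ∧ 5 ≤ k.minFac ∧
    ∃ G : SimpleGraph (Fin (3 * k - k / k.minFac)), InF k 2 G ∧
      IsEmpty (G ≃g Gk k.minFac (k / k.minFac)) := by
  have h11 : Nat.minFac 11 = 11 := Nat.Prime.minFac_eq (by norm_num)
  refine ⟨11, by norm_num, by rw [h11]; norm_num, ?_⟩
  rw [h11]
  refine ⟨G, ⟨regular, not_bip, diam_two, girth_four⟩, ⟨fun e => ?_⟩⟩
  have htw : ∀ x, G.Adj 1 x ↔ G.Adj 2 x := by decide +kernel
  have hne : e 1 ≠ e 2 := by
    intro h
    have := e.injective h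
    revert this
    decide
  obtain ⟨y, hy⟩ := no_twins (e 1) (e 2) hne
  obtain ⟨x, rfl⟩ := e.surjective y
  apply hy
  rw [e.map_adj_iff, e.map_adj_iff]
  exact htw x

end Pool.Agent.Results.MP_903317_co.ElevenTwins
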